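import Mathlib

/-!
Counting solutions of `a * b * c = 1` in a finite abelian group: a Pollard-type bound.
-/

namespace Pool.Agent.Lib.MP_9441bf_co

open Finset

variable {Γ : Type*} [CommGroup Γ] [DecidableEq Γ]

/-- the number of pairs `(a, c) ∈ A × C` with `(a c)⁻¹ ∈ B`. -/
def T (A B C : Finset Γ) : ℕ := ((A ×ˢ C).filter (fun p => (p.1 * p.2)⁻¹ ∈ B)).card

theorem T_swap (A B C : Finset Γ) : T A B C = T C B A := by
  unfold T
  refine card_bij (fun p _ => (p.2, p.1)) ?_ ?_ ?_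
  · rintro ⟨a, c⟩ h
    simp only [mem_filter, mem_product] at h ⊢
    exact ⟨⟨h.1.2, h.1.1⟩, by rw [mul_comm]; exact h.2⟩
  · rintro ⟨a, c⟩ _ ⟨a', c'⟩ _ h
    simp only [Prod.mk.injEq] at h ⊢
    exact ⟨h.2, h.1⟩
  · rintro ⟨c, a⟩ h
    simp only [mem_filter, mem_product] at h
    refine ⟨(a, c), ?_, rfl⟩
    simp only [mem_filter, mem_product]
    exact ⟨⟨h.1.2, h.1.1⟩, by rw [mul_comm]; exact h.2⟩

theorem T_le_mul (A B C : Finset Γ) : T A B C ≤ A.card * C.card := by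
  unfold T
  rw [← card_product]
  exact card_filter_le _ _

theorem T_le_left (A B C : Finset Γ) : T A B C ≤ A.card * B.card := by
  unfold T
  rw [← card_product]
  refine card_le_card_of_injOn (fun p => (p.1, (p.1 * p.2)⁻¹)) ?_ ?_
  · rintro ⟨a, c⟩ h
    simp only [coe_filter, mem_product, Set.mem_ofPred_eq] at h
    simp only [coe_product, Set.mem_prod, mem_coe]
    exact ⟨h.1.1, h.2⟩
  · rintro ⟨a, c⟩ _ ⟨a', c'⟩ _ h
    simp only [Prod.mk.injEq, inv_inj] at h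
    obtain ⟨rfl, h⟩ := h
    rw [mul_left_cancel h]

theorem T_le_right (A B C : Finset Γ) : T A B C ≤ C.card * B.card := by
  rw [T_swap]; exact T_le_left _ _ _

theorem T_move (A B C : Finset Γ) (e : Γ) :
    T A B C ≤ T (A.filter (fun a => a * e⁻¹ ∉ B)) (B.filter (fun b => b * e ∉ A)) C
      + (A.filter (fun a => a * e⁻¹ ∈ B)).card * C.card := by
  set P := (A ×ˢ C).filter (fun p => (p.1 * p.2)⁻¹ ∈ B) with hP
  set P' := ((A.filter (fun a => a * e⁻¹ ∉ B)) ×ˢ C).filter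
    (fun p => (p.1 * p.2)⁻¹ ∈ B.filter (fun b => b * e ∉ A)) with hP'
  have h1 : P.card ≤ P'.card + (P \ P').card := by
    have : P ⊆ P' ∪ (P \ P') := by
      intro p hp
      by_cases h : p ∈ P'
      · exact mem_union_left _ h
      · exact mem_union_right _ (mem_sdiff.2 ⟨hp, h⟩)
    exact (card_le_card this).trans (card_union_le _ _)
  have h2 : (P \ P').card ≤ (A.filter (fun a => a * e⁻¹ ∈ B)).card * C.card := by
    rw [← card_product]
    refine card_le_card_of_injOn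
      (fun p => (if p.1 * e⁻¹ ∈ B then p.1 else (p.1 * p.2)⁻¹ * e, p.2)) ?_ ?_
    · rintro ⟨a, c⟩ h
      simp only [coe_sdiff, Set.mem_sdiff, mem_coe, hP, hP', mem_filter, mem_product] at h
      obtain ⟨⟨⟨ha, hc⟩, hb⟩, hn⟩ := h
      simp only [coe_product, Set.mem_prod, mem_coe, mem_filter]
      refine ⟨?_, hc⟩
      by_cases h : a * e⁻¹ ∈ B
      · rw [if_pos h]; exact ⟨ha, h⟩
      · rw [if_neg h]
        refine ⟨?_, by simpa using hb⟩
        by_contra hh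
        exact hn ⟨⟨⟨ha, h⟩, hc⟩, hb, hh⟩
    · rintro ⟨a, c⟩ h ⟨a', c'⟩ h' heq
      simp only [coe_sdiff, Set.mem_sdiff, mem_coe, hP, hP', mem_filter, mem_product] at h h'
      obtain ⟨⟨⟨ha, hc⟩, hb⟩, hn⟩ := h
      obtain ⟨⟨⟨ha', hc'⟩, hb'⟩, hn'⟩ := h'
      simp only [Prod.mk.injEq] at heq
      obtain ⟨h1, rfl⟩ := heq
      by_cases h : a * e⁻¹ ∈ B <;> by_cases h' : a' * e⁻¹ ∈ B
      · rw [if_pos h, if_pos h'] at h1; rw [h1]
      · rw [if_pos h, if_neg h'] at h1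
        exfalso; apply h'
        have : a' * e⁻¹ = (a * c)⁻¹ := by
          rw [h1]; simp only [mul_inv, inv_inv]
          rw [show a' * c * e⁻¹ * c⁻¹ = a' * e⁻¹ * (c * c⁻¹) by ac_rfl]; simp
        rw [this]; exact hb
      · rw [if_neg h, if_pos h'] at h1
        exfalso; apply h
        have : a * e⁻¹ = (a' * c)⁻¹ := by
          rw [← h1]; simp only [mul_inv, inv_inv]
          rw [show a * c * e⁻¹ * c⁻¹ = a * e⁻¹ * (c * c⁻¹) by ac_rfl]; simp
        rw [this]; exact hb'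
      · rw [if_neg h, if_neg h'] at h1
        have := mul_right_cancel (inv_inj.1 (mul_right_cancel h1))
        rw [this]
  exact h1.trans (Nat.add_le_add_left h2 _)

theorem card_filter_shift (A B : Finset Γ) (e : Γ) :
    (B.filter (fun b => b * e ∈ A)).card = (A.filter (fun a => a * e⁻¹ ∈ B)).card := by
  refine card_bij (fun b _ => b * e) ?_ ?_ ?_
  · intro b hb
    simp only [mem_filter] at hb ⊢
    exact ⟨hb.2, by simpa using hb.1⟩
  · intro b _ b' _ h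
    exact mul_right_cancel h
  · intro a ha
    simp only [mem_filter] at ha
    refine ⟨a * e⁻¹, ?_, by simp⟩
    simp only [mem_filter]
    exact ⟨ha.2, by simpa using ha.1⟩

theorem T_super (A₁ A₂ B C₁ C₂ : Finset Γ) :
    T A₁ B C₁ + T A₂ B C₂ ≤ T (A₁ ∪ A₂) B (C₁ ∪ C₂) + T (A₁ ∩ A₂) B (C₁ ∩ C₂) := by
  unfold T
  rw [← card_union_add_card_inter]
  refine add_le_add (card_le_card ?_) (card_le_card ?_)
  · rintro ⟨a, c⟩ h
    simp only [mem_union, mem_filter, mem_product] at h ⊢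
    rcases h with h | h
    · exact ⟨⟨Or.inl h.1.1, Or.inl h.1.2⟩, h.2⟩
    · exact ⟨⟨Or.inr h.1.1, Or.inr h.1.2⟩, h.2⟩
  · rintro ⟨a, c⟩ h
    simp only [mem_inter, mem_filter, mem_product] at h ⊢
    exact ⟨⟨⟨h.1.1.1, h.2.1.1⟩, ⟨h.1.1.2, h.2.1.2⟩⟩, h.1.2⟩

theorem T_shift (A B C : Finset Γ) (e : Γ) :
    T A B C ≤ T (A.image (· * e)) B (C.image (· * e⁻¹)) := by
  unfold T
  refine card_le_card_of_injOn (fun p => (p.1 * e, p.2 * e⁻¹)) ?_ ?_
  · rintro ⟨a, c⟩ h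
    simp only [coe_filter, mem_product, Set.mem_ofPred_eq] at h
    simp only [coe_filter, mem_product, Set.mem_ofPred_eq]
    refine ⟨⟨mem_image_of_mem _ h.1.1, mem_image_of_mem _ h.1.2⟩, ?_⟩
    rw [show a * e * (c * e⁻¹) = a * c * (e * e⁻¹) by ac_rfl]
    simpa using h.2
  · rintro ⟨a, c⟩ _ ⟨a', c'⟩ _ h
    simp only [Prod.mk.injEq, mul_left_inj] at h
    rw [h.1, h.2]

theorem T_shiftB (A B C : Finset Γ) (e : Γ) :
    T A B C ≤ T A (B.image (· * e)) (C.image (· * e⁻¹)) := by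
  unfold T
  refine card_le_card_of_injOn (fun p => (p.1, p.2 * e⁻¹)) ?_ ?_
  · rintro ⟨a, c⟩ h
    simp only [coe_filter, mem_product, Set.mem_ofPred_eq] at h
    simp only [coe_filter, mem_product, Set.mem_ofPred_eq]
    refine ⟨⟨h.1.1, mem_image_of_mem _ h.1.2⟩, ?_⟩
    refine mem_image.2 ⟨_, h.2, ?_⟩
    simp only [mul_inv, inv_inv, mul_assoc]
  · rintro ⟨a, c⟩ _ ⟨a', c'⟩ _ h
    simp only [Prod.mk.injEq, mul_left_inj] at h
    rw [h.1, h.2]

theorem T_split (K : Subgroup Γ) [DecidablePred (· ∈ K)] (A B C : Finset Γ)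
    (hB : ∀ b ∈ B, b ∈ K) (g : Γ) :
    T A B C ≤ T (A.filter (fun a => a * g⁻¹ ∈ K)) B (C.filter (fun c => c * g ∈ K))
      + T (A.filter (fun a => a * g⁻¹ ∉ K)) B (C.filter (fun c => c * g ∉ K)) := by
  unfold T
  refine le_trans (card_le_card ?_) (card_union_le _ _)
  rintro ⟨a, c⟩ h
  simp only [mem_union, mem_filter, mem_product] at h ⊢
  have hk : a * c ∈ K := by simpa using K.inv_mem (hB _ h.2)
  by_cases h1 : a * g⁻¹ ∈ K
  · left
    refine ⟨⟨⟨h.1.1, h1⟩, ⟨h.1.2, ?_⟩⟩, h.2⟩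
    have := K.mul_mem hk (K.inv_mem h1)
    simp only [mul_inv, inv_inv] at this
    rw [show a * c * (a⁻¹ * g) = c * g * (a * a⁻¹) by ac_rfl] at this
    simpa using this
  · right
    refine ⟨⟨⟨h.1.1, h1⟩, ⟨h.1.2, ?_⟩⟩, h.2⟩
    intro h2
    apply h1
    have := K.mul_mem hk (K.inv_mem h2)
    simp only [mul_inv] at this
    rw [show a * c * (c⁻¹ * g⁻¹) = a * g⁻¹ * (c * c⁻¹) by ac_rfl] at this
    simpa using this

end Pool.Agent.Lib.MP_9441bf_co
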