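import Pool.Agent.Lib.MP_9441bf_co.Pollard

/-!
The lower bound for the number of cells in which Cayley tables of two non-isomorphic abelian
groups differ.
-/

namespace Pool.Agent.Lib.MP_9441bf_co

open Finset

theorem decomp {G K : Type*} [CommGroup G] [Finite G] [Group K] (φ : K →* G)
    (hφ : Function.Injective φ) (q : ℕ) (hq : Nat.card G = Nat.card K * q)
    (hsq : Squarefree q) (hco : Nat.Coprime (Nat.card K) q) :
    Nonempty (G ≃* K × Multiplicative (ZMod q)) := by
  have hN : Nat.card φ.range = Nat.card K :=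
    (Nat.card_congr (MonoidHom.ofInjective hφ).toEquiv).symm
  have hpos : 0 < Nat.card φ.range := Nat.card_pos
  have hidx : φ.range.index = q := by
    have := φ.range.card_mul_index
    rw [hq, hN] at this
    rw [hN] at hpos
    exact Nat.eq_of_mul_eq_mul_left hpos this
  obtain ⟨H, hH⟩ := Subgroup.exists_right_complement'_of_coprime (N := φ.range)
    (by rw [hN, hidx]; exact hco)
  have cH : Nat.card H = q := by
    rw [← hidx]; exact hH.symm.index_eq_card.symm
  have : IsZGroup H := IsZGroup.of_squarefree (by rw [cH]; exact hsq)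
  have cyc : IsCyclic H := inferInstance
  have e1 : φ.range × H ≃* G :=
    MulEquiv.ofBijective (MonoidHom.coprod φ.range.subtype H.subtype) hH
  have e2 : Multiplicative (ZMod q) ≃* H := cH ▸ zmodCyclicMulEquiv cyc
  exact ⟨e1.symm.trans (MulEquiv.prodCongr (MonoidHom.ofInjective hφ).symm e2.symm)⟩

theorem exists_prime {G G' K : Type*} [CommGroup G] [Finite G] [CommGroup G'] [Finite G']
    [Group K] (φ : K →* G) (hφ : Function.Injective φ) (φ' : K →* G')
    (hφ' : Function.Injective φ') (q : ℕ) (hq : Nat.card G = Nat.card K * q)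
    (hq' : Nat.card G' = Nat.card K * q) (hne : ¬ Nonempty (G' ≃* G)) :
    ∃ p : ℕ, p.Prime ∧ p ∣ q ∧ p ^ 2 ∣ Nat.card K * q := by
  by_contra hcon
  push Not at hcon
  have hsq : Squarefree q := by
    rw [Nat.squarefree_iff_prime_squarefree]
    intro p hp hd
    exact hcon p hp (dvd_trans (dvd_mul_right p p) hd)
      (by rw [sq]; exact dvd_mul_of_dvd_right hd _)
  have hco : Nat.Coprime (Nat.card K) q := by
    apply Nat.coprime_of_dvd
    intro p hp h1 h2
    exact hcon p hp h2 (by rw [sq]; exact mul_dvd_mul h1 h2)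
  obtain ⟨e⟩ := decomp φ hφ q hq hsq hco
  obtain ⟨e'⟩ := decomp φ' hφ' q hq' hsq hco
  exact hne ⟨e'.trans e.symm⟩

theorem arith_even (n p : ℕ) (hp : p ∣ n) :
    (((n / p) ^ 2 * (p ^ 2 / 4) : ℕ) : ℚ) ≤ (n : ℚ) ^ 2 / 4 := by
  obtain ⟨u, rfl⟩ := hp
  rcases Nat.eq_zero_or_pos p with rfl | hp0
  · simp
  rw [Nat.mul_div_cancel_left _ hp0]
  have h1 : 4 * (p ^ 2 / 4) ≤ p ^ 2 := Nat.mul_div_le _ _
  have h2 : (4 : ℚ) * ((p ^ 2 / 4 : ℕ) : ℚ) ≤ (p : ℚ) ^ 2 := by exact_mod_cast h1
  push_cast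
  nlinarith [sq_nonneg (u : ℚ)]

theorem arith_odd (k q p : ℕ) (hp : p ∣ q) (hq : q % 2 = 1) :
    (((k * q / p) ^ 2 * (p ^ 2 / 4) : ℕ) : ℚ) ≤ ((k * q : ℕ) : ℚ) ^ 2 / 4 - (k : ℚ) ^ 2 / 4 := by
  obtain ⟨u, rfl⟩ := hp
  have hp1 : p % 2 = 1 := by
    rcases Nat.mod_two_eq_zero_or_one p with h | h
    · rw [Nat.mul_mod, h] at hq; simp at hq
    · exact h
  have hu : 1 ≤ u := by
    rcases Nat.eq_zero_or_pos u with rfl | h
    · simp at hq
    · exact h
  have hp0 : 0 < p := by omega
  rw [show k * (p * u) = p * (k * u) by ring, Nat.mul_div_cancel_left _ hp0]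
  obtain ⟨t, rfl⟩ : ∃ t, p = 2 * t + 1 := ⟨p / 2, by omega⟩
  have h1 : (2 * t + 1) ^ 2 / 4 = t * t + t := by
    rw [show (2 * t + 1) ^ 2 = 4 * (t * t + t) + 1 by ring]; omega
  rw [h1]
  push_cast
  have hu' : (1 : ℚ) ≤ u := by exact_mod_cast hu
  have : (k : ℚ) ^ 2 ≤ (k : ℚ) ^ 2 * (u : ℚ) ^ 2 := by
    have : (1 : ℚ) ≤ (u : ℚ) ^ 2 := by nlinarith
    nlinarith [sq_nonneg (k : ℚ)]
  nlinarith

theorem lower {n : ℕ} (hn : 1 ≤ n) {G G' : Type*} [CommGroup G] [CommGroup G']
    (α β γ : Fin n ≃ G) (α' β' γ' : Fin n ≃ G') (A A' : Fin n → Fin n → Fin n)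
    (hA : ∀ i j, γ (A i j) = α i * β j) (hA' : ∀ i j, γ' (A' i j) = α' i * β' j)
    (hne : ¬ Nonempty (G' ≃* G)) (S : Finset (Fin n × Fin n))
    (hS : ∀ i j, (i, j) ∉ S → A' i j = A i j) :
    ∃ p : ℕ, p.Prime ∧ p ^ 2 ∣ n ∧ (n / p) ^ 2 * (p ^ 2 / 4) ≤ S.card := by
  classical
  have : Finite G := Finite.of_equiv _ α
  have : Finite G' := Finite.of_equiv _ α'
  have cG : Nat.card G = n := by rw [← Nat.card_congr α]; simp
  have cG' : Nat.card G' = n := by rw [← Nat.card_congr α']; simp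
  set a : Fin n → G × G' := fun i => (α i, α' i) with ha
  set b : Fin n → G × G' := fun i => (β i, β' i) with hb
  set c : Fin n → G × G' := fun i => (γ i, γ' i)⁻¹ with hc
  have ia : Function.Injective a := fun i j h => α.injective (congrArg Prod.fst h)
  have ib : Function.Injective b := fun i j h => β.injective (congrArg Prod.fst h)
  have ic : Function.Injective c := fun i j h => γ.injective (congrArg Prod.fst (inv_inj.1 h))
  set D : Set (G × G') := {w | (w.1 = 1 → w = 1) ∧ (w.2 = 1 → w = 1)} with hD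
  have dd : ∀ (μ : Fin n ≃ G) (μ' : Fin n ≃ G'),
      ∀ u ∈ univ.image (fun i => (μ i, μ' i)), ∀ u' ∈ univ.image (fun i => (μ i, μ' i)),
        u * u'⁻¹ ∈ D := by
    intro μ μ' u hu u' hu'
    obtain ⟨i, -, rfl⟩ := mem_image.1 hu
    obtain ⟨j, -, rfl⟩ := mem_image.1 hu'
    constructor
    · intro h
      have h1 : μ i = μ j := by simpa [mul_inv_eq_one] using h
      rw [μ.injective h1]; simp
    · intro h
      have h1 : μ' i = μ' j := by simpa [mul_inv_eq_one] using h
      rw [μ'.injective h1]; simp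
  have hn' : (0 : ℚ) < n := by exact_mod_cast hn
  obtain ⟨K, k1, k2, k3⟩ := process D ((n : ℚ) / 2) (by linarith) _ (univ.image a) (univ.image c)
    (univ.image b) ((n : ℚ) / 2) ((n : ℚ) / 2) rfl (by linarith) (by linarith)
    (by rw [card_image_of_injective _ ia]; simp) (by rw [card_image_of_injective _ ib]; simp)
    (by rw [card_image_of_injective _ ic]; simp) (dd α α') (dd β β')
  have cnt : n * n ≤ T (univ.image a) (univ.image c) (univ.image b) + S.card := by
    have h1 : (univ \ S).card ≤ T (univ.image a) (univ.image c) (univ.image b) := by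
      unfold T
      refine card_le_card_of_injOn (fun p => (a p.1, b p.2)) ?_ ?_
      · rintro ⟨i, j⟩ h
        simp only [coe_sdiff, coe_univ, Set.mem_sdiff, Set.mem_univ, mem_coe, true_and] at h
        simp only [coe_filter, mem_product, Set.mem_ofPred_eq]
        refine ⟨⟨mem_image_of_mem _ (mem_univ _), mem_image_of_mem _ (mem_univ _)⟩, ?_⟩
        refine mem_image.2 ⟨A i j, mem_univ _, ?_⟩
        simp only [ha, hb, hc, Prod.mk_mul_mk, inv_inj, Prod.mk.injEq]
        exact ⟨hA i j, by rw [← hS i j h]; exact hA' i j⟩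
      · rintro ⟨i, j⟩ _ ⟨i', j'⟩ _ h
        simp only [Prod.mk.injEq] at h
        rw [ia h.1, ib h.2]
    have h2 : (univ \ S).card + S.card = n * n := by
      rw [card_sdiff_add_card_eq_card (subset_univ _)]; simp
    omega
  have cnt' : (n : ℚ) * n ≤ T (univ.image a) (univ.image c) (univ.image b) + S.card := by
    exact_mod_cast cnt
  have i1 : Function.Injective ((MonoidHom.fst G G').comp K.subtype) := by
    rw [injective_iff_map_eq_one]
    intro w hw
    exact Subtype.ext ((k1 w w.2).1 hw)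
  have i2 : Function.Injective ((MonoidHom.snd G G').comp K.subtype) := by
    rw [injective_iff_map_eq_one]
    intro w hw
    exact Subtype.ext ((k1 w w.2).2 hw)
  obtain ⟨q, hq⟩ : Nat.card K ∣ Nat.card G := Subgroup.card_dvd_of_injective _ i1
  obtain ⟨p, pp, pq, pn⟩ := exists_prime _ i1 _ i2 q hq (by rw [cG', ← cG, hq]) hne
  rw [cG] at hq
  refine ⟨p, pp, by rw [hq]; exact pn, ?_⟩
  have goal : (((n / p) ^ 2 * (p ^ 2 / 4) : ℕ) : ℚ) ≤ S.card := by
    rcases Nat.mod_two_eq_zero_or_one q with h | h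
    · obtain ⟨m, rfl⟩ : ∃ m, q = 2 * m := ⟨q / 2, by omega⟩
      have e : (n : ℚ) = Nat.card K * (2 * m) := by exact_mod_cast hq
      have h1 := k3 m (by rw [e]; ring)
      have h2 := arith_even n p (by rw [hq]; exact dvd_mul_of_dvd_right pq _)
      linarith
    · have h2 := arith_odd (Nat.card K) q p pq h
      rw [← hq] at h2
      linarith
  exact_mod_cast goal

end Pool.Agent.Lib.MP_9441bf_co
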