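import Pool.Agent.Lib.MP_9441bf_co.Count

/-!
The compression lemma inside cosets of a subgroup, and the removal process.
-/

namespace Pool.Agent.Lib.MP_9441bf_co

open Finset

variable {Γ : Type*} [CommGroup Γ] [DecidableEq Γ]

omit [DecidableEq Γ] in
theorem card_le_of_sub [Finite Γ] (K : Subgroup Γ) (P : Finset Γ) (hP : ∀ p ∈ P, p ∈ K) :
    P.card ≤ Nat.card K := by
  have h1 : (P : Set Γ) ⊆ (K : Set Γ) := fun p hp => hP p hp
  have h2 := Set.ncard_le_ncard h1 (Set.toFinite _)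
  rw [Set.ncard_coe_finset] at h2
  exact h2

omit [DecidableEq Γ] in
theorem card_ge_of_sup (K : Subgroup Γ) (P : Finset Γ) (hP : ∀ p ∈ K, p ∈ P) :
    Nat.card K ≤ P.card := by
  have h1 : (K : Set Γ) ⊆ (P : Set Γ) := fun p hp => hP p hp
  have h2 := Set.ncard_le_ncard h1 (P.finite_toSet)
  rw [Set.ncard_coe_finset] at h2
  exact h2

theorem card_shift (A : Finset Γ) (e : Γ) : (A.image (· * e)).card = A.card :=
  card_image_of_injective _ (mul_left_injective e)

theorem two_pair (K : Subgroup Γ) (B : Finset Γ) (N : ℕ) :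
    ∀ P R A C : Finset Γ, A.card + C.card = N → (∀ p ∈ P, p ∈ K) → (∀ p ∈ R, p ∈ K) →
      (∀ p ∈ A, p ∈ K) → (∀ p ∈ C, p ∈ K) →
      ∃ P' R' A' C' : Finset Γ, (∀ p ∈ P', p ∈ K) ∧ (∀ p ∈ R', p ∈ K) ∧
        (∀ p ∈ A', p ∈ K) ∧ (∀ p ∈ C', p ∈ K) ∧
        P'.card + A'.card = P.card + A.card ∧ R'.card + C'.card = R.card + C.card ∧
        T P B R + T A B C ≤ T P' B R' + T A' B C' ∧
        (A' = ∅ ∨ C' = ∅ ∨ (Nat.card K ≤ P'.card ∧ Nat.card K ≤ R'.card)) := by
  induction N using Nat.strong_induction_on with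
  | _ N ih =>
  intro P R A C hN hP hR hA hC
  by_cases h : ∀ e ∈ K, A.image (· * e) ⊆ P ∧ C.image (· * e⁻¹) ⊆ R
  · refine ⟨P, R, A, C, hP, hR, hA, hC, rfl, rfl, le_rfl, ?_⟩
    rcases A.eq_empty_or_nonempty with hA0 | ⟨a, ha⟩
    · exact Or.inl hA0
    rcases C.eq_empty_or_nonempty with hC0 | ⟨c, hc⟩
    · exact Or.inr (Or.inl hC0)
    refine Or.inr (Or.inr ⟨card_ge_of_sup K P ?_, card_ge_of_sup K R ?_⟩)
    · intro p hp
      have := (h (a⁻¹ * p) (K.mul_mem (K.inv_mem (hA a ha)) hp)).1 (mem_image_of_mem _ ha)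
      simpa using this
    · intro p hp
      have := (h (p⁻¹ * c) (K.mul_mem (K.inv_mem hp) (hC c hc))).2 (mem_image_of_mem _ hc)
      simp only [mul_inv, inv_inv] at this
      rw [show c * (p * c⁻¹) = p * (c * c⁻¹) by ac_rfl] at this
      simpa using this
  · push Not at h
    obtain ⟨e, he, hne⟩ := h
    set A₁ := A.image (· * e) with hA₁
    set C₁ := C.image (· * e⁻¹) with hC₁
    have cA : A₁.card = A.card := card_shift _ _
    have cC : C₁.card = C.card := card_shift _ _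
    have kA : ∀ p ∈ A₁, p ∈ K := by
      intro p hp
      obtain ⟨a, ha, rfl⟩ := mem_image.1 hp
      exact K.mul_mem (hA a ha) he
    have kC : ∀ p ∈ C₁, p ∈ K := by
      intro p hp
      obtain ⟨a, ha, rfl⟩ := mem_image.1 hp
      exact K.mul_mem (hC a ha) (K.inv_mem he)
    have lA : (P ∩ A₁).card ≤ A₁.card := card_le_card inter_subset_right
    have lC : (R ∩ C₁).card ≤ C₁.card := card_le_card inter_subset_right
    have hlt : (P ∩ A₁).card + (R ∩ C₁).card < N := by
      by_cases h1 : A₁ ⊆ P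
      · have h2 := hne h1
        have : (R ∩ C₁).card < C₁.card := by
          refine card_lt_card ⟨inter_subset_right, fun hh => h2 ?_⟩
          exact fun x hx => (mem_inter.1 (hh hx)).1
        omega
      · have : (P ∩ A₁).card < A₁.card := by
          refine card_lt_card ⟨inter_subset_right, fun hh => h1 ?_⟩
          exact fun x hx => (mem_inter.1 (hh hx)).1
        omega
    obtain ⟨P', R', A', C', h1, h2, h3, h4, h5, h6, h7, h8⟩ :=
      ih _ hlt (P ∪ A₁) (R ∪ C₁) (P ∩ A₁) (R ∩ C₁) rfl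
        (fun p hp => (mem_union.1 hp).elim (hP p) (kA p))
        (fun p hp => (mem_union.1 hp).elim (hR p) (kC p))
        (fun p hp => hP p (mem_inter.1 hp).1) (fun p hp => hR p (mem_inter.1 hp).1)
    refine ⟨P', R', A', C', h1, h2, h3, h4, ?_, ?_, ?_, h8⟩
    · rw [h5, card_union_add_card_inter, cA]
    · rw [h6, card_union_add_card_inter, cC]
    · have s1 := T_shift A B C e
      have s2 := T_super P A₁ B R C₁
      rw [← hA₁, ← hC₁] at s1
      omega

theorem T_empty_left (B C : Finset Γ) : T ∅ B C = 0 := by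
  have := T_le_mul ∅ B C
  simpa using this

theorem T_empty_right (A B : Finset Γ) : T A B ∅ = 0 := by
  have := T_le_mul A B ∅
  simpa using this

/-- The compression lemma. -/
theorem claimR [Finite Γ] (K : Subgroup Γ) (B : Finset Γ) (hB : ∀ b ∈ B, b ∈ K) (x z : ℚ)
    (hx : 0 ≤ x) (hz : 0 ≤ z) (N : ℕ) :
    ∀ (A C P R : Finset Γ) (m : ℕ), A.card = N → (∀ p ∈ P, p ∈ K) → (∀ p ∈ R, p ∈ K) →
      (P.card : ℚ) + A.card ≤ m * Nat.card K + z → (R.card : ℚ) + C.card ≤ m * Nat.card K + x →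
      (T P B R : ℚ) + T A B C ≤ m * Nat.card K * B.card + x * z := by
  classical
  induction N using Nat.strong_induction_on with
  | _ N ih =>
  intro A C P R m hN hP hR h1 h2
  have hxz : 0 ≤ x * z := mul_nonneg hx hz
  rcases m with _ | m
  · have t1 : (T P B R : ℚ) ≤ P.card * R.card := by exact_mod_cast T_le_mul P B R
    have t2 : (T A B C : ℚ) ≤ A.card * C.card := by exact_mod_cast T_le_mul A B C
    simp only [Nat.cast_zero, zero_mul, zero_add] at h1 h2 ⊢
    have p1 : (0 : ℚ) ≤ P.card := Nat.cast_nonneg _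
    have p2 : (0 : ℚ) ≤ A.card := Nat.cast_nonneg _
    have p3 : (0 : ℚ) ≤ R.card := Nat.cast_nonneg _
    have p4 : (0 : ℚ) ≤ C.card := Nat.cast_nonneg _
    have : ((P.card : ℚ) + A.card) * (R.card + C.card) ≤ z * x :=
      mul_le_mul h1 h2 (by positivity) hz
    nlinarith [mul_nonneg p1 p4, mul_nonneg p2 p3]
  have hk0 : (0 : ℚ) ≤ Nat.card K := Nat.cast_nonneg _
  have hb0 : (0 : ℚ) ≤ B.card := Nat.cast_nonneg _
  have full : ∀ P' R' : Finset Γ, (∀ p ∈ P', p ∈ K) → (T P' B R' : ℚ) ≤ Nat.card K * B.card := by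
    intro P' R' hP'
    have t1 : (T P' B R' : ℚ) ≤ P'.card * B.card := by exact_mod_cast T_le_left P' B R'
    have t2 : (P'.card : ℚ) ≤ Nat.card K := by exact_mod_cast card_le_of_sub K P' hP'
    exact t1.trans (mul_le_mul_of_nonneg_right t2 hb0)
  rcases A.eq_empty_or_nonempty with rfl | ⟨g, hg⟩
  · rw [T_empty_left]
    have := full P R hP
    push_cast
    have : (0 : ℚ) ≤ m * Nat.card K * B.card := by positivity
    nlinarith
  set A₁ := A.filter (fun a => a * g⁻¹ ∈ K) with hA₁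
  set A₂ := A.filter (fun a => a * g⁻¹ ∉ K) with hA₂
  set C₁ := C.filter (fun c => c * g ∈ K) with hC₁
  set C₂ := C.filter (fun c => c * g ∉ K) with hC₂
  have sp : T A B C ≤ T A₁ B C₁ + T A₂ B C₂ := T_split K A B C hB g
  have cA : A₁.card + A₂.card = A.card := card_filter_add_card_filter_not _
  have cC : C₁.card + C₂.card = C.card := card_filter_add_card_filter_not _
  have pos : 0 < A₁.card := card_pos.2 ⟨g, mem_filter.2 ⟨hg, by simp⟩⟩
  have sh := T_shift A₁ B C₁ g⁻¹
  obtain ⟨P', R', A', C', k1, k2, k3, k4, k5, k6, k7, k8⟩ :=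
    two_pair K B _ P R (A₁.image (· * g⁻¹)) (C₁.image (· * g⁻¹⁻¹)) rfl hP hR
      (by
        intro p hp
        obtain ⟨a, ha, rfl⟩ := mem_image.1 hp
        exact (mem_filter.1 ha).2)
      (by
        intro p hp
        obtain ⟨a, ha, rfl⟩ := mem_image.1 hp
        simpa using (mem_filter.1 ha).2)
  rw [card_shift] at k5 k6
  have tot : (T P B R : ℚ) + T A B C ≤ T P' B R' + T A' B C' + T A₂ B C₂ := by
    have : T P B R + T A B C ≤ T P' B R' + T A' B C' + T A₂ B C₂ := by omega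
    exact_mod_cast this
  have e1 : (P'.card : ℚ) + A'.card + A₂.card = P.card + A.card := by
    have : P'.card + A'.card + A₂.card = P.card + A.card := by omega
    exact_mod_cast this
  have e2 : (R'.card : ℚ) + C'.card + C₂.card = R.card + C.card := by
    have : R'.card + C'.card + C₂.card = R.card + C.card := by omega
    exact_mod_cast this
  have p1 : (0 : ℚ) ≤ A'.card := Nat.cast_nonneg _
  have p2 : (0 : ℚ) ≤ C'.card := Nat.cast_nonneg _
  have drop : T A' B C' = 0 → (T P B R : ℚ) + T A B C ≤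
      ((m + 1 : ℕ) : ℚ) * Nat.card K * B.card + x * z := by
    intro h0
    have := ih A₂.card (by omega) A₂ C₂ P' R' (m + 1) rfl k1 k2 (by linarith) (by linarith)
    rw [h0] at tot
    simp only [Nat.cast_zero, add_zero] at tot
    linarith
  rcases k8 with rfl | rfl | ⟨k8, k9⟩
  · exact drop (T_empty_left _ _)
  · exact drop (T_empty_right _ _)
  · have q1 : (Nat.card K : ℚ) ≤ P'.card := by exact_mod_cast k8
    have q2 : (Nat.card K : ℚ) ≤ R'.card := by exact_mod_cast k9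
    push_cast at h1 h2 ⊢
    have := ih A₂.card (by omega) A₂ C₂ A' C' m rfl k3 k4 (by linarith) (by linarith)
    have := full P' R' k1
    linarith

/-- In the terminal state the group generated by the quotients of `B` lies in `A / A`. -/
theorem closure_sub (A B : Finset Γ) (hA : A.Nonempty)
    (h : ∀ e : Γ, (A.filter (fun a => a * e⁻¹ ∈ B)).Nonempty →
      B.card < 2 * (A.filter (fun a => a * e⁻¹ ∈ B)).card) :
    ∀ g ∈ Subgroup.closure {g | ∃ b ∈ B, ∃ b' ∈ B, g = b * b'⁻¹},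
      ∃ a ∈ A, ∃ a' ∈ A, g = a * a'⁻¹ := by
  have key : ∀ b ∈ B, ∀ b' ∈ B, ∀ a ∈ A, ∀ a' ∈ A,
      ∃ a₁ ∈ A, ∃ a₂ ∈ A, b * b'⁻¹ * (a * a'⁻¹) = a₁ * a₂⁻¹ := by
    intro b hb b' hb' a ha a' ha'
    have h1 := h (a * b'⁻¹) ⟨a, mem_filter.2 ⟨ha, by simpa using hb'⟩⟩
    have h2 := h (a' * b⁻¹) ⟨a', mem_filter.2 ⟨ha', by simpa using hb⟩⟩
    rw [← card_filter_shift] at h1 h2
    have : ¬ Disjoint (B.filter (fun x => x * (a * b'⁻¹) ∈ A))
        (B.filter (fun x => x * (a' * b⁻¹) ∈ A)) := by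
      intro hd
      have h3 := card_union_of_disjoint hd
      have h4 : ((B.filter (fun x => x * (a * b'⁻¹) ∈ A)) ∪
          (B.filter (fun x => x * (a' * b⁻¹) ∈ A))).card ≤ B.card :=
        card_le_card (union_subset (filter_subset _ _) (filter_subset _ _))
      omega
    obtain ⟨w, w1, w2⟩ := not_disjoint_iff.1 this
    refine ⟨_, (mem_filter.1 w1).2, _, (mem_filter.1 w2).2, ?_⟩
    simp only [mul_inv, inv_inv]
    rw [show w * (a * b'⁻¹) * (w⁻¹ * (a'⁻¹ * b)) = (w * w⁻¹) * (b * b'⁻¹ * (a * a'⁻¹)) by ac_rfl]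
    simp
  have stab : ∀ g ∈ Subgroup.closure {g | ∃ b ∈ B, ∃ b' ∈ B, g = b * b'⁻¹},
      ∀ a ∈ A, ∀ a' ∈ A, ∃ a₁ ∈ A, ∃ a₂ ∈ A, g * (a * a'⁻¹) = a₁ * a₂⁻¹ := by
    intro g hg
    induction hg using Subgroup.closure_induction'' with
    | one => intro a ha a' ha'; exact ⟨a, ha, a', ha', by simp⟩
    | mem g hg =>
      obtain ⟨b, hb, b', hb', rfl⟩ := hg
      exact key b hb b' hb'
    | inv_mem g hg =>
      obtain ⟨b, hb, b', hb', rfl⟩ := hg
      intro a ha a' ha'
      obtain ⟨a₁, h1, a₂, h2, h3⟩ := key b' hb' b hb a ha a' ha'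
      refine ⟨a₁, h1, a₂, h2, ?_⟩
      rw [← h3]; simp
    | mul g g' _ _ i1 i2 =>
      intro a ha a' ha'
      obtain ⟨a₁, h1, a₂, h2, h3⟩ := i2 a ha a' ha'
      obtain ⟨a₃, h4, a₄, h5, h6⟩ := i1 a₁ h1 a₂ h2
      exact ⟨a₃, h4, a₄, h5, by rw [mul_assoc, h3, h6]⟩
  intro g hg
  obtain ⟨a, ha⟩ := hA
  obtain ⟨a₁, h1, a₂, h2, h3⟩ := stab g hg a ha a ha
  exact ⟨a₁, h1, a₂, h2, by simpa using h3⟩

/-- The bounds available once `B` lies in one coset of `K`. -/
theorem terminal [Finite Γ] (A B C : Finset Γ) (x y z : ℚ) (hx : 0 ≤ x) (hz : 0 ≤ z)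
    (hA : (A.card : ℚ) = y + z) (hC : (C.card : ℚ) = y + x) (hB : (B.card : ℚ) = x + z)
    (K : Subgroup Γ) (hK : ∀ b ∈ B, ∀ b' ∈ B, b * b'⁻¹ ∈ K) :
    (T A B C : ℚ) ≤ x * y + y * z + z * x + (Nat.card K : ℚ) ^ 2 / 4 ∧
      ∀ m : ℕ, y = m * Nat.card K → (T A B C : ℚ) ≤ x * y + y * z + z * x := by
  rcases B.eq_empty_or_nonempty with rfl | ⟨b₀, hb₀⟩
  · have h0 : T A ∅ C = 0 := by
      have := T_le_left A ∅ C
      simpa using this
    simp only [card_empty, Nat.cast_zero] at hB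
    have x0 : x = 0 := by linarith
    have z0 : z = 0 := by linarith
    subst x0 z0
    rw [h0]
    refine ⟨by push_cast; nlinarith [sq_nonneg (Nat.card K : ℚ)], fun _ _ => by simp⟩
  have hB' : ∀ b ∈ B.image (· * b₀⁻¹), b ∈ K := by
    intro p hp
    obtain ⟨b, hb, rfl⟩ := mem_image.1 hp
    exact hK b hb b₀ hb₀
  have hk : (B.card : ℚ) ≤ Nat.card K := by
    have := card_le_of_sub K _ hB'
    rw [card_shift] at this
    exact_mod_cast this
  constructor
  · have t1 : (T A B C : ℚ) ≤ A.card * B.card := by exact_mod_cast T_le_left A B C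
    have t2 : (T A B C : ℚ) ≤ C.card * B.card := by exact_mod_cast T_le_right A B C
    rw [hA, hB] at t1
    rw [hC, hB] at t2
    rw [hB] at hk
    have hsq : (x + z) ^ 2 ≤ (Nat.card K : ℚ) ^ 2 := by
      exact pow_le_pow_left₀ (by positivity) hk 2
    rcases le_total x z with h | h
    · nlinarith
    · nlinarith
  · intro m hm
    have s := T_shiftB A B C b₀⁻¹
    have r := claimR K _ hB' x z hx hz _ A (C.image (· * b₀⁻¹⁻¹)) ∅ ∅ m rfl (by simp) (by simp)
      (by simp only [card_empty, Nat.cast_zero, zero_add]; rw [hA, hm])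
      (by simp only [card_empty, Nat.cast_zero, zero_add]; rw [card_shift, hC, hm])
    rw [T_empty_left, card_shift, hB, ← hm] at r
    have s' : (T A B C : ℚ) ≤ T A (B.image (· * b₀⁻¹)) (C.image (· * b₀⁻¹⁻¹)) := by
      exact_mod_cast s
    simp only [Nat.cast_zero, zero_add] at r
    linarith

/-- The removal process. -/
theorem process [Finite Γ] (D : Set Γ) (y : ℚ) (hy : 0 < y) (N : ℕ) :
    ∀ (A B C : Finset Γ) (x z : ℚ), B.card = N → 0 ≤ x → 0 ≤ z →
      (A.card : ℚ) = y + z → (C.card : ℚ) = y + x → (B.card : ℚ) = x + z →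
      (∀ a ∈ A, ∀ a' ∈ A, a * a'⁻¹ ∈ D) → (∀ a ∈ C, ∀ a' ∈ C, a * a'⁻¹ ∈ D) →
      ∃ K : Subgroup Γ, (∀ g ∈ K, g ∈ D) ∧
        (T A B C : ℚ) ≤ x * y + y * z + z * x + (Nat.card K : ℚ) ^ 2 / 4 ∧
        ∀ m : ℕ, y = m * Nat.card K → (T A B C : ℚ) ≤ x * y + y * z + z * x := by
  induction N using Nat.strong_induction_on with
  | _ N ih =>
  have main : ∀ (A B C : Finset Γ) (x z : ℚ), B.card = N → 0 ≤ x → x ≤ z →
      (A.card : ℚ) = y + z → (C.card : ℚ) = y + x → (B.card : ℚ) = x + z →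
      (∀ a ∈ A, ∀ a' ∈ A, a * a'⁻¹ ∈ D) → (∀ a ∈ C, ∀ a' ∈ C, a * a'⁻¹ ∈ D) →
      ∃ K : Subgroup Γ, (∀ g ∈ K, g ∈ D) ∧
        (T A B C : ℚ) ≤ x * y + y * z + z * x + (Nat.card K : ℚ) ^ 2 / 4 ∧
        ∀ m : ℕ, y = m * Nat.card K → (T A B C : ℚ) ≤ x * y + y * z + z * x := by
    intro A B C x z hN hx hxz hA hC hB dA dC
    have hz : 0 ≤ z := hx.trans hxz
    by_cases h : ∃ e : Γ, (A.filter (fun a => a * e⁻¹ ∈ B)).Nonempty ∧
        ((A.filter (fun a => a * e⁻¹ ∈ B)).card : ℚ) ≤ z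
    · obtain ⟨e, hne, hle⟩ := h
      have mv := T_move A B C e
      have c1 : (A.filter (fun a => a * e⁻¹ ∈ B)).card + (A.filter (fun a => a * e⁻¹ ∉ B)).card
        = A.card := card_filter_add_card_filter_not _
      have c2 : (B.filter (fun b => b * e ∈ A)).card + (B.filter (fun b => b * e ∉ A)).card
        = B.card := card_filter_add_card_filter_not _
      rw [card_filter_shift] at c2
      have pos := card_pos.2 hne
      set v := (A.filter (fun a => a * e⁻¹ ∈ B)).card with hv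
      set A' := A.filter (fun a => a * e⁻¹ ∉ B) with hA'
      set B' := B.filter (fun b => b * e ∉ A) with hB'
      have c1' : (v : ℚ) + A'.card = A.card := by exact_mod_cast c1
      have c2' : (v : ℚ) + B'.card = B.card := by exact_mod_cast c2
      have mv' : (T A B C : ℚ) ≤ T A' B' C + v * C.card := by exact_mod_cast mv
      obtain ⟨K, k1, k2, k3⟩ := ih B'.card (by omega) A' B' C x (z - v) rfl hx (by linarith)
        (by linarith) hC (by linarith)
        (fun a ha a' ha' => dA a (mem_filter.1 ha).1 a' (mem_filter.1 ha').1) dC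
      rw [hC] at mv'
      refine ⟨K, k1, by nlinarith, fun m hm => ?_⟩
      have := k3 m hm
      nlinarith
    · push Not at h
      have hAne : A.Nonempty := by
        rw [← card_pos]
        have : (0 : ℚ) < A.card := by linarith
        exact_mod_cast this
      have cs := closure_sub A B hAne (by
        intro e he
        have h1 := h e he
        have : (B.card : ℚ) < 2 * (A.filter (fun a => a * e⁻¹ ∈ B)).card := by linarith
        exact_mod_cast this)
      refine ⟨Subgroup.closure {g | ∃ b ∈ B, ∃ b' ∈ B, g = b * b'⁻¹}, ?_, ?_⟩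
      · intro g hg
        obtain ⟨a, ha, a', ha', rfl⟩ := cs g hg
        exact dA a ha a' ha'
      · exact terminal A B C x y z hx hz hA hC hB _
          (fun b hb b' hb' => Subgroup.subset_closure ⟨b, hb, b', hb', rfl⟩)
  intro A B C x z hN hx hz hA hC hB dA dC
  rcases le_total x z with h | h
  · exact main A B C x z hN hx h hA hC hB dA dC
  · obtain ⟨K, k1, k2, k3⟩ := main C B A z x hN hz h hC hA (by linarith) dC dA
    rw [T_swap] at k2 k3
    refine ⟨K, k1, by linarith, fun m hm => ?_⟩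
    have := k3 m hm
    linarith

end Pool.Agent.Lib.MP_9441bf_co
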