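import Mathlib

/-!
Cayley tables of `Z/n` and `Z/(n/p) × Z/p` that differ in few cells (balanced carries).
-/

namespace Pool.Agent.Lib.MP_9441bf_co

open Finset

theorem sum_dist (s d : ℕ) :
    2 * ∑ r ∈ range (s + 1 + d), ((s - r) + (r - s)) = s * (s + 1) + d * (d + 1) := by
  induction d with
  | zero =>
    have h1 : ∑ r ∈ range (s + 1), ((s - r) + (r - s)) = ∑ r ∈ range (s + 1), (s + 1 - 1 - r) := by
      refine sum_congr rfl fun r hr => ?_
      have := mem_range.1 hr
      omega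
    rw [add_zero, h1, sum_range_reflect (fun r => r) (s + 1), mul_comm, sum_range_id_mul_two]
    simp [mul_comm]
  | succ d ih =>
    rw [← add_assoc, sum_range_succ, mul_add, ih]
    have : s - (s + 1 + d) + (s + 1 + d - s) = d + 1 := by omega
    rw [this]; ring

theorem bad_card (p : ℕ) (hp : 1 ≤ p) :
    ((range p ×ˢ range p).filter
      (fun w : ℕ × ℕ => w.1 + w.2 < (p - 1) / 2 ∨ (p - 1) / 2 + p ≤ w.1 + w.2)).card
      ≤ p ^ 2 / 4 := by
  set s := (p - 1) / 2 with hs
  have h1 : ((range p ×ˢ range p).filter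
      (fun w : ℕ × ℕ => w.1 + w.2 < s ∨ s + p ≤ w.1 + w.2)).card
      ≤ ∑ r ∈ range p, ((s - r) + (r - s)) := by
    rw [card_filter, sum_product]
    refine sum_le_sum fun r _ => ?_
    rw [← card_filter]
    have : (range p).filter (fun y => r + y < s ∨ s + p ≤ r + y) ⊆
        range (s - r) ∪ Ico (p - (r - s)) p := by
      intro y hy
      simp only [mem_filter, mem_range, mem_union, mem_Ico] at hy ⊢
      omega
    refine (card_le_card this).trans ((card_union_le _ _).trans ?_)
    simp only [card_range, Nat.card_Ico]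
    omega
  have h2 := sum_dist s (p - 1 - s)
  rw [show s + 1 + (p - 1 - s) = p by omega] at h2
  refine h1.trans ?_
  rw [Nat.le_div_iff_mul_le (by norm_num)]
  rcases Nat.even_or_odd' p with ⟨t, rfl | rfl⟩
  · obtain ⟨u, rfl⟩ : ∃ u, t = u + 1 := ⟨t - 1, by omega⟩
    have e1 : s = u := by omega
    have e2 : 2 * (u + 1) - 1 - s = u + 1 := by omega
    rw [e2] at h2
    rw [e1] at h2 ⊢
    nlinarith
  · have e1 : s = t := by omega
    have e2 : 2 * t + 1 - 1 - s = t := by omega
    rw [e2] at h2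
    rw [e1] at h2 ⊢
    nlinarith

theorem upper_aux (m p : ℕ) [NeZero m] [NeZero p] :
    ∃ (φ : ZMod m × ZMod p ≃ ZMod (p * m)) (s : ZMod (p * m)) (s' : ZMod m × ZMod p)
      (S : Finset ((ZMod m × ZMod p) × (ZMod m × ZMod p))),
      S.card ≤ m ^ 2 * (p ^ 2 / 4) ∧
      ∀ u w, (u, w) ∉ S → φ (u + w - s') + s = φ u + φ w := by
  classical
  have hp : 0 < p := Nat.pos_of_ne_zero (NeZero.ne p)
  have hm : 0 < m := Nat.pos_of_ne_zero (NeZero.ne m)
  have : NeZero (p * m) := ⟨Nat.mul_ne_zero hp.ne' hm.ne'⟩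
  let f : ZMod m × ZMod p → ZMod (p * m) := fun w => ((p * w.1.val + w.2.val : ℕ) : ZMod (p * m))
  have lt : ∀ w : ZMod m × ZMod p, p * w.1.val + w.2.val < p * m := by
    intro w
    have h1 := ZMod.val_lt w.1
    have h2 := ZMod.val_lt w.2
    have : p * (w.1.val + 1) ≤ p * m := Nat.mul_le_mul_left _ h1
    rw [mul_add] at this
    omega
  have inj : Function.Injective f := by
    intro u w h
    have h1 := (ZMod.natCast_eq_natCast_iff' _ _ _).1 h
    rw [Nat.mod_eq_of_lt (lt u), Nat.mod_eq_of_lt (lt w)] at h1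
    have h2 : u.2.val = w.2.val := by
      have := congrArg (· % p) h1
      simp only [Nat.mul_add_mod] at this
      rwa [Nat.mod_eq_of_lt (ZMod.val_lt _), Nat.mod_eq_of_lt (ZMod.val_lt _)] at this
    have h3 : u.1.val = w.1.val := by
      rw [h2] at h1
      exact Nat.eq_of_mul_eq_mul_left hp (Nat.add_right_cancel h1)
    exact Prod.ext (ZMod.val_injective _ h3) (ZMod.val_injective _ h2)
  have bij : Function.Bijective f := by
    rw [Fintype.bijective_iff_injective_and_card]
    exact ⟨inj, by simp [mul_comm]⟩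
  set s := (p - 1) / 2 with hs
  refine ⟨Equiv.ofBijective f bij, (s : ℕ), (0, (s : ℕ)),
    univ.filter (fun z => z.1.2.val + z.2.2.val < s ∨ s + p ≤ z.1.2.val + z.2.2.val), ?_, ?_⟩
  · refine le_trans ?_ (Nat.mul_le_mul_left _ (bad_card p hp))
    have e : m ^ 2 = (univ : Finset (ZMod m × ZMod m)).card := by simp [sq]
    rw [e, ← card_product]
    refine card_le_card_of_injOn (fun z => ((z.1.1, z.2.1), (z.1.2.val, z.2.2.val))) ?_ ?_
    · intro z hz
      simp only [coe_filter, mem_univ, true_and, Set.mem_ofPred_eq] at hz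
      simp only [coe_product, Set.mem_prod, mem_coe, mem_univ, true_and, mem_filter, mem_product,
        mem_range]
      exact ⟨⟨ZMod.val_lt _, ZMod.val_lt _⟩, hz⟩
    · rintro ⟨⟨a, b⟩, ⟨c, d⟩⟩ _ ⟨⟨a', b'⟩, ⟨c', d'⟩⟩ _ h
      simp only [Prod.mk.injEq] at h
      obtain ⟨⟨rfl, rfl⟩, h1, h2⟩ := h
      rw [ZMod.val_injective _ h1, ZMod.val_injective _ h2]
  · rintro ⟨a, b⟩ ⟨c, d⟩ h
    simp only [mem_filter, mem_univ, true_and, not_or, not_lt, not_le] at h
    obtain ⟨h1, h2⟩ := h
    simp only [Equiv.ofBijective_apply, f, Prod.mk_add_mk, Prod.mk_sub_mk, sub_zero]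
    have e1 : (b + d - (s : ZMod p)).val = b.val + d.val - s := by
      have : b + d - (s : ZMod p) = ((b.val + d.val - s : ℕ) : ZMod p) := by
        rw [Nat.cast_sub h1]; simp
      rw [this, ZMod.val_natCast, Nat.mod_eq_of_lt (by omega)]
    rw [e1, ZMod.val_add, ← Nat.cast_add, ← Nat.cast_add, ZMod.natCast_eq_natCast_iff]
    have e2 : p * ((a.val + c.val) % m) ≡ p * (a.val + c.val) [MOD p * m] :=
      Nat.ModEq.mul_left' p (Nat.mod_modEq _ _)
    have e3 : p * ((a.val + c.val) % m) + (b.val + d.val - s) + s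
        = p * ((a.val + c.val) % m) + (b.val + d.val) := by omega
    have e4 : p * a.val + b.val + (p * c.val + d.val) = p * (a.val + c.val) + (b.val + d.val) := by
      ring
    rw [e3, e4]
    exact e2.add_right _

theorem upper (n p : ℕ) (hn : 1 ≤ n) (hp : p.Prime) (hd : p ^ 2 ∣ n) :
    ∃ (α β γ : Fin n ≃ Multiplicative (ZMod n))
      (α' β' γ' : Fin n ≃ Multiplicative (ZMod (n / p) × ZMod p))
      (A A' : Fin n → Fin n → Fin n) (S : Finset (Fin n × Fin n)),
      (∀ i j, γ (A i j) = α i * β j) ∧ (∀ i j, γ' (A' i j) = α' i * β' j) ∧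
      S.card ≤ (n / p) ^ 2 * (p ^ 2 / 4) ∧ (∀ i j, (i, j) ∉ S → A' i j = A i j) ∧
      ¬ Nonempty (Multiplicative (ZMod (n / p) × ZMod p) ≃* Multiplicative (ZMod n)) := by
  classical
  obtain ⟨r, hr⟩ := hd
  obtain ⟨m, rfl, hpm⟩ : ∃ m, n = p * m ∧ p ∣ m := ⟨p * r, by rw [hr]; ring, dvd_mul_right _ _⟩
  rw [Nat.mul_div_cancel_left _ hp.pos]
  have hm : m ≠ 0 := by rintro rfl; simp at hn
  have : NeZero m := ⟨hm⟩
  have : NeZero p := ⟨hp.ne_zero⟩
  have : NeZero (p * m) := ⟨by omega⟩
  obtain ⟨φ, s, s', S, h1, h2⟩ := upper_aux m p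
  let e : Fin (p * m) ≃ ZMod m × ZMod p := (Fintype.equivFinOfCardEq (by simp [mul_comm])).symm
  let o : ZMod (p * m) ≃ Multiplicative (ZMod (p * m)) := Multiplicative.ofAdd
  let o' : ZMod m × ZMod p ≃ Multiplicative (ZMod m × ZMod p) := Multiplicative.ofAdd
  let γ := e.trans (φ.trans ((Equiv.addRight s).trans o))
  let γ' := e.trans ((Equiv.addRight s').trans o')
  refine ⟨e.trans (φ.trans o), e.trans (φ.trans o), γ, e.trans o', e.trans o', γ',
    fun i j => γ.symm (o (φ (e i)) * o (φ (e j))), fun i j => γ'.symm (o' (e i) * o' (e j)),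
    S.map (Equiv.prodCongr e e).symm.toEmbedding, fun i j => by simp, fun i j => by simp,
    by rw [card_map]; exact h1, ?_, ?_⟩
  · intro i j hij
    have h3 : (e i, e j) ∉ S := by
      intro hh
      apply hij
      rw [mem_map_equiv]
      simpa using hh
    have h4 := h2 _ _ h3
    rw [Equiv.eq_symm_apply]
    have h5 : e (γ'.symm (o' (e i) * o' (e j))) = e i + e j - s' := by
      have : γ' (γ'.symm (o' (e i) * o' (e j))) = o' (e i + e j) := by
        rw [Equiv.apply_symm_apply]; rfl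
      simp only [γ', Equiv.trans_apply, Equiv.coe_addRight] at this
      exact eq_sub_of_add_eq (o'.injective this)
    simp only [γ, Equiv.trans_apply, Equiv.coe_addRight]
    rw [h5, h4]
    rfl
  · rintro ⟨ψ⟩
    have h3 : ∀ g : Multiplicative (ZMod m × ZMod p), g ^ m = 1 := by
      intro g
      apply Multiplicative.toAdd.injective
      rw [toAdd_pow, toAdd_one]
      ext
      · simp
      · obtain ⟨t, rfl⟩ := hpm
        simp
    have h4 : (Multiplicative.ofAdd (1 : ZMod (p * m))) ^ m = 1 := by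
      rw [← ψ.apply_symm_apply (Multiplicative.ofAdd 1), ← map_pow, h3, map_one]
    have h5 : ((m : ℕ) : ZMod (p * m)) = 0 := by
      have := congrArg Multiplicative.toAdd h4
      simpa using this
    rw [ZMod.natCast_eq_zero_iff] at h5
    have h6 := Nat.le_of_dvd (Nat.pos_of_ne_zero hm) h5
    have := hp.two_le
    have : 2 * m ≤ p * m := Nat.mul_le_mul_right _ this
    omega

end Pool.Agent.Lib.MP_9441bf_co
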